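import Pool.Agent.V1157.FM.Main

/-!
# Hodge classes, Tate classes and motivated classes up to bounded defects

Let `F` be a finitely generated subfield of `ℂ` with absolute Galois group `G`; fix a dimension `n`
and a codimension `r`. On the varieties of dimension `n` over all finite extensions of `F`:

* all Hodge classes are motivated if and only if for some `D` and all varieties over `F` of
  dimension `n` the space of Hodge classes modulo motivated classes has dimension at most `D`;
* all Tate classes are linear combinations of motivated classes if and only if for some `D` and all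
  varieties over `F` they are so up to classes fixed by subgroups of index at most `D` and up to a
  subrepresentation generated by `D` elements;
* the same with Hodge classes instead of motivated classes: this is one half of the Mumford–Tate
  conjecture;
* all Hodge classes are Tate classes (the other half) if and only if for some `D` and all varieties
  over `F` the space of Hodge classes modulo Tate classes has dimension at most `D`.
-/

open CategoryTheory AlgebraicGeometry

universe u v w x y

namespace Pool.Agent.Results.MP_b8862a_ag.BoundedDefectsMotivated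

open Pool.Agent.H914 Pool.Agent.H914.VarClass Pool.Agent.H914.VarClass.Obj Pool.Agent.W492.BB
  Pool.Agent.TH133 Pool.Agent.V1157.FM
open Pool.Agent.V1157.BD (ClassFamily)
open Pool.Agent.V1157.FD (FormData IsGalois IsTate HasTwistedPowers)

theorem result {k : Type u} [Field k] {𝒱 : VarClass k} {C : TheoryData.{u, v, 0} 𝒱 ℚ}
    [IsChowProj C] {K : Type w} [Field K] [CharZero K] {H : WeilTheoryData.{u, v, w} C K}
    [IsWeilProj H] {G : Type x} [Group G] (R : FormData.{u, v, w, x, y} G H) (hR : IsGalois R)
    (hfin : ∀ X : 𝒱.Obj, Module.Finite K (H.A X))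
    (hcl : ∀ (X : R.Form) (r : ℕ) (z : C.A (R.obj X)), C.Deg r z → IsTate R X r (H.cl z))
    (Hodge Motivated : ClassFamily H)
    (hM : ∀ (X : 𝒱.Obj) (r : ℕ) (z : C.A X), C.Deg r z → Motivated.Mem X r (H.cl z))
    (hMH : ∀ (X : 𝒱.Obj) (r : ℕ) (t : H.A X), Motivated.Mem X r t → Hodge.Mem X r t)
    (n r : ℕ) (hP : HasTwistedPowers R n) :
    (Spanned R Motivated Hodge n r ↔ ∃ D, DefectAtMost R Motivated Hodge n r D) ∧
    (TateSpanned R Motivated n r ↔ ∃ D, TateWithin R Motivated n r D) ∧
    (TateSpanned R Hodge n r ↔ ∃ D, TateWithin R Hodge n r D) ∧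
    (AllTate R Hodge n r ↔ ∃ D, TateDefectAtMost R Hodge n r D) :=
  ⟨⟨fun h => ⟨0, defect_of_spanned h⟩, fun ⟨_, hD⟩ => spanned_of_defect hM hP hD⟩,
    ⟨fun h => ⟨0, within_of_spanned h⟩, fun ⟨_, hD⟩ => spanned_of_within hR hM hfin hP hD⟩,
    ⟨fun h => ⟨0, within_of_spanned h⟩, fun ⟨_, hD⟩ =>
      spanned_of_within hR (fun X r z hz => hMH X r _ (hM X r z hz)) hfin hP hD⟩,
    ⟨fun h => ⟨0, defect_of_allTate hR h⟩, fun ⟨_, hD⟩ => allTate_of_defect hR hcl hP hD⟩⟩

end Pool.Agent.Results.MP_b8862a_ag.BoundedDefectsMotivated
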