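import Pool.Agent.Y130.MT.Final

/-!
# The Mumford-Tate conjecture from isolated Frobenius eigenvalues, with coefficients

Let `A` be an abelian variety over a finitely generated subfield of the complex numbers, of any
dimension and with arbitrary endomorphisms, `Γ` the Galois group and `K` an algebraic closure of
`ℚ_ℓ`. Let `T` be a Galois representation over `K` with an alternating form of multiplier `χ` (the
cyclotomic character), such that `V = V_ℓ(A) ⊗ K` is a direct summand of a sum of copies of `T`:
for instance `T` is the sum of the `V_ℓ(A_i) ⊗ K` for the different simple factors `A_i` of `A`, or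
`T = V`. Suppose (`IsolatedBlocks`; `α ~ β` means that `α` and `β` differ by a root of unity):

* `T` is the sum of subspaces `U c` which are absolutely irreducible under all subgroups of finite
  index, each orthogonal to all the others except one, `U (star c)`;
* each `U c` of dimension at least two contains ONE isolated eigenvector of ONE element `F` of `Γ`
  (which depends on `c`; for instance a Frobenius element): an eigenvector for an eigenvalue `a`
  which is simple up to roots of unity, such that `a δ ~ β γ` for eigenvalues `β`, `γ`, `δ` of `F`
  only if `β ~ a` or `γ ~ a` or `a δ ~ χ(F)`, and no power of `β / a`, for the other eigenvalues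
  `β`, is in a given group `H F` of numbers;
* if `star c ≠ c`, the determinant of some `F` on `U c` is independent of the determinants on the
  other blocks and of `H F`.

Nothing is supposed about the other eigenvalues, the slopes, the endomorphisms or the bad reduction
of `A`, and no element has to have distinct eigenvalues.

**Theorem.** Let `E` be ANY Galois representation such that the eigenvalues of all `F` on `E` are in
the groups `H F`. Then all Tate classes in `H^1(A)^{⊗ n} ⊗ E`, for all `n`, are combinations of
products of Hodge classes of degree two (classes of divisors) on `A × A`, with rational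
coefficients, and of Tate classes of `E`.

For the trivial representation `E` and `H F` generated by `χ(F)` this is the Mumford-Tate conjecture
for `A` (and the Hodge, Tate and motivated classes of all powers of `A` are generated by divisors);
for general `E` it says that the motive of `A` is independent of the motives with realisation `E`.
-/

open Module Pool.Agent.Y130 Pool.Agent.Y130.MT Pool.Agent.H204R3.GP

namespace Pool.Agent.Results.MP_b8862a_ag.IsolatedFrobeniusEigenvalues

/-- The comparison data of an abelian variety `A`: `W = H_1(A, ℚ)`, `per : W → A₀` the map to the
tangent space `A₀`, `comp : W → V` the map to the Tate module `V`, with the Galois action `ρ`; a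
nondegenerate form `ω` on `V` with multiplier `χ` (Weil pairing of a polarization) which comes from
a Hodge class `ω₀` on `W`; and the theorem of Faltings: the endomorphisms of `V` which commute with
a subgroup of finite index of the Galois group are combinations of endomorphisms of `A`. -/
structure IsTateModule {W A₀ K V Γ : Type} [AddCommGroup W] [Module ℚ W] [AddCommGroup A₀]
    [Module ℂ A₀] [Field K] [CharZero K] [AddCommGroup V] [Module K V] [Group Γ]
    (per : W →+ A₀) (comp : W →+ V) (ρ : Representation K Γ V) (χ : Γ →* K)
    (ω : V →ₗ[K] V →ₗ[K] K) (ω₀ : W →ₗ[ℚ] W →ₗ[ℚ] ℚ) : Prop where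
  nondeg : ∀ u, (∀ v, ω u v = 0) → u = 0
  equiv : ∀ s u v, ω (ρ s u) (ρ s v) = χ s * ω u v
  hodge : IsHodgeBilinear per ω₀
  compare : ∀ x y, ω (comp x) (comp y) = ((ω₀ x y : ℚ) : K)
  faltings : FaltingsEnd per comp ρ

/-- **The Mumford-Tate conjecture, with coefficients in `E`, from one isolated Frobenius eigenvalue
in every block of the Tate module.** -/
theorem result {K : Type} [Field K] [CharZero K] [IsAlgClosed K]
    {T : Type} [AddCommGroup T] [Module K T] [FiniteDimensional K T]
    {V : Type} [AddCommGroup V] [Module K V] [FiniteDimensional K V]
    {E : Type} [AddCommGroup E] [Module K E] [FiniteDimensional K E]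
    {Γ : Type} [Group Γ] {C : Type} [Finite C]
    {W A₀ : Type} [AddCommGroup W] [Module ℚ W] [AddCommGroup A₀] [Module ℂ A₀]
    (χ : Γ →* K) (τ : Representation K Γ T) (ρ : Representation K Γ V) (σ : Representation K Γ E)
    (B : T →ₗ[K] T →ₗ[K] K) (U : C → Submodule K T) (star : C → C) (Δ : Subgroup Γ)
    (H : Γ → Subgroup Kˣ) (per : W →+ A₀) (comp : W →+ V)
    (ω : V →ₗ[K] V →ₗ[K] K) (ω₀ : W →ₗ[ℚ] W →ₗ[ℚ] ℚ) (hA : IsTateModule per comp ρ χ ω ω₀)
    (hdom : SummandOfCopies τ ρ) (hT : IsolatedBlocks τ χ B U star Δ H)
    (hE : ContainsEigenvalues H χ σ) :
    TateClassesWithCoefficients per comp ρ χ σ :=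
  main per comp ω hA.nondeg hA.equiv ω₀ hA.hodge hA.compare hA.faltings hdom hT hE

end Pool.Agent.Results.MP_b8862a_ag.IsolatedFrobeniusEigenvalues
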