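import Mathlib
import Pool.Agent.V1141.OF.MT

/-!
# The Mumford-Tate conjecture from one Frobenius element with slopes of mixed types

Let `A` be an abelian variety over a finitely generated subfield of the complex numbers, of any
dimension and with arbitrary endomorphisms. Suppose that `A` has good reduction at ONE closed point
(of a model of the field, with residue field of `p ^ a` elements) such that the characteristic
polynomial of the Frobenius element is the product of the minimal polynomials of Weil numbers `π i`
which generate CM fields `K i`, embeddings of different fields are cross flipped (some automorphism of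
`ℂ` fixes one and conjugates the other), and every `π i` is of one of the following types, possibly
different ones for different `i`:

* pair type: the maximal real subfield of `K i` is pair-transitive, its degree `n` is odd, or `n - 1`
  is prime, or it is triple-transitive, and `π i` is not of Weil type;
* flip type: for any two embeddings of `K i` some automorphism of `ℂ` fixes one and conjugates the
  other, or maps `φ` to `ψ` and `ψ` to the conjugate of `φ`; and `π i` is not supersingular;
* normal type: no condition on the Galois group; with `α = π ^ 2 / p ^ a`, whose powers generate the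
  field, twice the largest slope of `α` is at least the sum of its positive slopes (if it is equal to
  the sum, there is no norm relation), or the degree of `K i` is twice a prime number and there is no
  norm relation, or `K i` has degree `2 r ^ k`, `r` prime, over a real subfield and the slopes over one
  place of the subfield have an odd sum `S` (`S < r` if `r ≠ 2`), the others are divisible by `r`.

Then for all primes `ℓ ≠ p` all Tate classes in the tensor powers of `H^1` (and so in the cohomology
of all powers of `A`) are linear combinations of products of Hodge classes of degree two. Together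
with the theorem of Deligne (Hodge classes are Tate classes) this is the equality of the Mumford-Tate
group (over `ℚ_ℓ`) and of the connected component of the `ℓ`-adic monodromy group, and these classes
are algebraic by the theorem of Lefschetz, so that the motivic Galois group is the same group: the
motivated Mumford-Tate conjecture holds for all motives in the category generated by `H^1(A)`.

The only theorem of Faltings which is used is the one on endomorphisms (`FaltingsEnd`); the
semisimplicity of the Galois representation is not a hypothesis. In the proof the root vectors of the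
Lie algebra of all endomorphisms that kill the Tate tensors are shown to come in opposite pairs by the
representation theory of `sl(2)`: a tensor killed by `e` and `h = [e, f]` is killed by `f`.
-/

set_option autoImplicit false

namespace Pool.Agent.Results.MP_b8862a_ag.PairFlipNormalFrobenius

open NumberField Module Pool.Agent.H204R3.GP IntermediateField Pool.Agent.H194R3.CM
  Pool.Agent.H194R3.Tate Pool.Agent.V1141.OF

/-- The Mumford-Tate conjecture, if the characteristic polynomial of one element `γ` of the Galois
group is the product of the minimal polynomials of Weil numbers `π i` of pair, flip or normal type in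
CM fields with cross flipped embeddings. -/
theorem result (ℓ p : ℕ) [Fact ℓ.Prime] [Fact p.Prime] (a : ℕ) (ha : 0 < a)
    {ι : Type} [Fintype ι] (K : ι → Type) [∀ i, Field (K i)] [∀ i, NumberField (K i)]
    [∀ i, IsCMField (K i)]
    (π : ∀ i, K i) (hgen : ∀ i, ℚ⟮π i⟯ = ⊤)
    (hweil : ∀ i, π i * IsCMField.complexConj (K i) (π i) = (p : K i) ^ a)
    (hπ : ∀ i, PairType p a (π i) ∨ FlipType p a (π i) ∨ NormalType p a (π i))
    (hcross : ∀ i j, i ≠ j → ∀ (φ : K i →+* ℂ) (ψ : K j →+* ℂ), CrossFlipped φ ψ)
    -- the complex torus `A(ℂ)` with a polarization
    {W T : Type} [AddCommGroup W] [Module ℚ W] [AddCommGroup T] [Module ℂ T] (per : W →+ T)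
    (ω₀ : W →ₗ[ℚ] W →ₗ[ℚ] ℚ) (hω₀ : IsHodgeBilinear per ω₀)
    -- the Tate module
    {V : Type} [AddCommGroup V] [Module ℚ_[ℓ] V] [FiniteDimensional ℚ_[ℓ] V] (comp : W →+ V)
    {Γ : Type} [Group Γ] (ρ : Representation ℚ_[ℓ] Γ V) (χ : Γ →* ℚ_[ℓ])
    (ω : V →ₗ[ℚ_[ℓ]] V →ₗ[ℚ_[ℓ]] ℚ_[ℓ]) (halt : ∀ v, ω v v = 0)
    (hnondeg : ∀ u, (∀ v, ω v u = 0) → u = 0)
    (hω : ∀ s u v, ω (ρ s u) (ρ s v) = χ s * ω u v)
    (hωω : ∀ x y, ω (comp x) (comp y) = ((ω₀ x y : ℚ) : ℚ_[ℓ]))
    (hF : FaltingsEnd per comp ρ)
    (γ : Γ) (hχ : χ γ = (p : ℚ_[ℓ]) ^ a)
    (hγ : (ρ γ).charpoly = ∏ i, (minpoly ℚ (π i)).map (algebraMap ℚ ℚ_[ℓ])) :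
    MumfordTateStrong per comp ρ χ :=
  mumfordTate_of_normal ℓ p a ha K π hgen hweil hπ hcross per ω₀ hω₀ comp ρ χ ω halt hnondeg hω hωω
    hF γ hχ hγ

end Pool.Agent.Results.MP_b8862a_ag.PairFlipNormalFrobenius
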