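import Pool.Agent.V1142.XZ.MotGal

/-!
# The index of the motivated classes in the Tate classes on the products `Z × X^n`

In the intended use the varieties are the smooth projective ones over a finitely generated field
`k`, `W` is the `ℓ`-adic cohomology, `Γ` is the absolute Galois group of `k` with its actions `G`,
the cycles are those defined over `k` and `chi` is the inverse of the cyclotomic character. The
motivated classes are the smallest family of classes on all varieties which contains the classes of
algebraic cycles and is closed under sums, multiples, products, pull-backs, push-forwards and the
inverses of the Lefschetz isomorphisms. They are Tate classes; the motivated Mumford-Tate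
conjecture asks for the converse. (In characteristic zero no nonzero motivated class is numerically
trivial, by the theorem of Hodge and Riemann, so that the rank `m(Y)` below is the number of
linearly independent motivated classes on `Y`; we do not assume this.)

Let `X` be a variety, let `t(Y)` be the number of linearly independent Tate classes (of all
codimensions) on `Y`, let `m(Y)` be the rank of the motivated classes on `Y` modulo numerical
equivalence and let `b(Y)` be the total Betti number. There is `N` in `{1, 2, …, ∞}` such that

* `t(X^n) / m(X^n)` tends to `N`, and `N = 1` if and only if all Tate classes on all powers of `X`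
  are motivated and no nonzero motivated class on them is numerically trivial.

For every variety `Z` there are `P` in `{1, 2, …, ∞}` and an integer `0 ≤ q ≤ b(Z)` with `N ≤ P` and
`N q ≤ P` such that

* `t(Z × X^n) / m(X^n)` tends to `P`, and `m(Z × X^n) / m(X^n)` tends to `q` if `N` is finite;
* `t(Z × X^n) / m(Z × X^n)` tends to `P / q`;
* all Tate classes on all products `Z × X^n` are motivated and no nonzero motivated class on them
  is numerically trivial if and only if `P = q`; otherwise `m(Z × X^n)` is asymptotically at most
  `b(Z) / (b(Z) + 1)` times `t(Z × X^n)`, and at most half of `t(Z × X^n)` if already `N ≠ 1`.
-/

open CategoryTheory AlgebraicGeometry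

universe u v w

namespace Pool.Agent.Results.MP_b8862a_ag.TateMotivatedIndex

open Pool.Agent.H914 Pool.Agent.V1142.XZ

variable {k : Type u} [Field k] {𝒱 : VarClass k} {ops : CycleOps 𝒱}

/-- The index law for the Tate classes and the motivated classes. -/
theorem result (W : WeilCohomology.{u, v} ops) (Γ : Type w) [Group Γ] (G : GalTheory W Γ)
    (X : 𝒱.Obj) [Nontrivial (W.H X)] :
    IndexLaw G.tateNum (motRank W) (fun Z => Module.finrank W.K (W.H Z)) (TateMot G) X :=
  motGal_law G X

end Pool.Agent.Results.MP_b8862a_ag.TateMotivatedIndex
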